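import Pool.Agent.W982.AT.Defs

/-!
# Balanced orientations of a gadget graph: first facts
-/

namespace Pool.Agent.W982.AT

section
variable {Col Row Dir Cp : Type} [Fintype Col] [Fintype Row] [Fintype Dir] [Fintype Cp]
  [DecidableEq Col] [DecidableEq Row] [DecidableEq Dir] [DecidableEq Cp]

theorem col_true (S : Sys Col Row Dir Cp) {o : Et Col Row Dir Cp → Bool}
    (h : ∀ v, od S.E o v = 2) (x : Col) : o (.col x) = true := by
  classical
  by_contra hx
  have hx' : o (.col x) = false := by simpa using hx
  let f : Bool × Fin 4 → Vt Col Row Cp := fun p => .k p.1 p.2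
  have hfi : Function.Injective f := by
    rintro ⟨a, b⟩ ⟨c, d⟩ h
    simpa [f] using h
  let A : Finset (Et Col Row Dir Cp) :=
    Finset.univ.biUnion fun p : Bool × Fin 4 => Finset.univ.filter fun e => tl S.E o e = f p
  have hA : A.card = 16 := by
    rw [Finset.card_biUnion]
    · have : ∀ p : Bool × Fin 4, (Finset.univ.filter fun e => tl S.E o e = f p).card = 2 :=
        fun p => h _
      simp [this]
    · intro p _ q _ hpq
      rw [Function.onFun, Finset.disjoint_left]
      intro e he he'
      simp only [Finset.mem_filter, Finset.mem_univ, true_and] at he he'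
      exact hpq (hfi (he.symm.trans he'))
  let B : Finset (Et Col Row Dir Cp) :=
    insert (.col x) (Finset.univ.image fun p : Fin 4 × Fin 4 => .k p.1 p.2)
  have hB : B.card = 17 := by
    rw [Finset.card_insert_of_notMem, Finset.card_image_of_injective]
    · simp
    · rintro ⟨a, b⟩ ⟨c, d⟩ h
      simpa using h
    · simp
  have hBA : B ⊆ A := by
    intro e he
    simp only [B, Finset.mem_insert, Finset.mem_image, Finset.mem_univ, true_and] at he
    simp only [A, Finset.mem_biUnion, Finset.mem_univ, true_and, Finset.mem_filter]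
    rcases he with rfl | ⟨p, rfl⟩
    · exact ⟨(false, 0), by simp [tl, hx', Sys.E, f]⟩
    · cases ho : o (.k p.1 p.2)
      · exact ⟨(true, p.2), by simp [tl, ho, Sys.E, f]⟩
      · exact ⟨(false, p.1), by simp [tl, ho, Sys.E, f]⟩
  have := Finset.card_le_card hBA
  omega

theorem at_most_once (S : Sys Col Row Dir Cp) {o : Et Col Row Dir Cp → Bool}
    (h : ∀ v, od S.E o v = 2) {x : Col} {e e' : Et Col Row Dir Cp} (he : tl S.E o e = .col x)
    (he' : tl S.E o e' = .col x) (h1 : e ≠ .col x) (h2 : e' ≠ .col x) : e = e' := by
  by_contra hne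
  have h3 : tl S.E o (.col x) = .col x := by simp [tl, col_true S h x, Sys.E]
  have hs : ({.col x, e, e'} : Finset (Et Col Row Dir Cp)) ⊆
      Finset.univ.filter fun i => tl S.E o i = .col x := by
    intro a ha
    simp only [Finset.mem_insert, Finset.mem_singleton] at ha
    simp only [Finset.mem_filter, Finset.mem_univ, true_and]
    rcases ha with rfl | rfl | rfl
    · exact h3
    · exact he
    · exact he'
  have hc : ({.col x, e, e'} : Finset (Et Col Row Dir Cp)).card = 3 := by
    rw [Finset.card_insert_of_notMem, Finset.card_insert_of_notMem, Finset.card_singleton]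
    · simpa using hne
    · simp [Ne.symm h1, Ne.symm h2]
  have h4 := Finset.card_le_card hs
  have h5 : (Finset.univ.filter fun i => tl S.E o i = .col x).card = 2 := h _
  omega

theorem tl_br_iff (S : Sys Col Row Dir Cp) {o : Et Col Row Dir Cp → Bool} {c : Cp} {f h : Bool}
    {e : Et Col Row Dir Cp} : tl S.E o e = .br c f h ↔
      (e = .mid c f ∧ o (.mid c f) ≠ h) ∨ (∃ t, e = .out c f h t ∧ o (.out c f h t) = true) := by
  cases e with
  | k i j => cases ho : o (.k i j) <;> simp [tl, Sys.E, ho]
  | col x => cases ho : o (.col x) <;> simp [tl, Sys.E, ho]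
  | row r a => cases ho : o (.row r a) <;> simp [tl, Sys.E, ho]
  | dir d => cases ho : o (.dir d) <;> simp [tl, Sys.E, ho]
  | mid c' f' =>
    cases ho : o (.mid c' f') <;> simp only [tl, Sys.E, ho, if_true, if_false, Vt.br.injEq,
      Et.mid.injEq, reduceCtorEq, false_and, exists_false, or_false, Bool.false_eq_true]
    · constructor
      · rintro ⟨rfl, rfl, rfl⟩; exact ⟨⟨rfl, rfl⟩, by simp [ho]⟩
      · rintro ⟨⟨rfl, rfl⟩, h2⟩; exact ⟨rfl, rfl, by simpa [ho] using h2⟩
    · constructor
      · rintro ⟨rfl, rfl, rfl⟩; exact ⟨⟨rfl, rfl⟩, by simp [ho]⟩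
      · rintro ⟨⟨rfl, rfl⟩, h2⟩; exact ⟨rfl, rfl, by simpa [ho] using h2⟩
  | out c' f' h' t' =>
    cases ho : o (.out c' f' h' t') <;> simp only [tl, Sys.E, ho, if_true, if_false, Vt.br.injEq,
      Et.out.injEq, reduceCtorEq, false_and, false_or, Bool.false_eq_true, false_iff]
    · rintro ⟨t, ⟨rfl, rfl, rfl, rfl⟩, h2⟩
      rw [ho] at h2
      exact absurd h2 (by simp)
    · constructor
      · rintro ⟨rfl, rfl, rfl⟩; exact ⟨t', ⟨rfl, rfl, rfl, rfl⟩, ho⟩
      · rintro ⟨t, ⟨rfl, rfl, rfl, rfl⟩, h2⟩; exact ⟨rfl, rfl, rfl⟩

/-- the out-degree of a coupler vertex -/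
theorem od_br (S : Sys Col Row Dir Cp) (o : Et Col Row Dir Cp → Bool) (c : Cp) (f h : Bool) :
    od S.E o (.br c f h) = (if o (.mid c f) ≠ h then 1 else 0) +
      (if o (.out c f h false) = true then 1 else 0) +
      (if o (.out c f h true) = true then 1 else 0) := by
  have h1 : (Finset.univ.filter fun e => tl S.E o e = .br c f h) =
      ({.mid c f, .out c f h false, .out c f h true} : Finset (Et Col Row Dir Cp)).filter
        fun e => tl S.E o e = .br c f h := by
    ext e
    simp only [Finset.mem_filter, Finset.mem_univ, true_and, Finset.mem_insert,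
      Finset.mem_singleton]
    constructor
    · intro he
      refine ⟨?_, he⟩
      rcases (tl_br_iff S).1 he with ⟨rfl, -⟩ | ⟨t, rfl, -⟩
      · exact Or.inl rfl
      · cases t
        · exact Or.inr (Or.inl rfl)
        · exact Or.inr (Or.inr rfl)
    · exact fun he => he.2
  unfold od
  rw [h1, Finset.card_filter, Finset.sum_insert (by simp), Finset.sum_insert (by simp),
    Finset.sum_singleton, ← add_assoc]
  simp only [tl_br_iff, true_and, reduceCtorEq, false_and, exists_false, or_false, false_or,
    Et.out.injEq, exists_eq_left']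

/-- The state of a form in a balanced orientation: the half `o (.mid c f)` keeps both its
columns, the other half pays exactly one column, the one of type `typ o c f`. -/
theorem form_state (S : Sys Col Row Dir Cp) {o : Et Col Row Dir Cp → Bool}
    (h : ∀ v, od S.E o v = 2) (c : Cp) (f h' t : Bool) :
    o (.out c f h' t) = false ↔ (h' = !(o (.mid c f)) ∧ t = typ o c f) := by
  have h1 := h (.br c f false)
  have h2 := h (.br c f true)
  rw [od_br] at h1 h2
  unfold typ
  cases h' <;> cases t <;> cases hm : o (.mid c f) <;> cases h3 : o (.out c f false false) <;>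
    cases h4 : o (.out c f false true) <;> cases h5 : o (.out c f true false) <;>
    cases h6 : o (.out c f true true) <;> simp_all

/-- the edge by which the form `f` of the coupler `c` pays -/
def payE (o : Et Col Row Dir Cp → Bool) (c : Cp) (f : Bool) : Et Col Row Dir Cp :=
  .out c f (!(o (.mid c f))) (typ o c f)

/-- the index of the column paid by the form `f` -/
def payK (o : Et Col Row Dir Cp → Bool) (c : Cp) (f : Bool) : Bool :=
  xor (!(o (.mid c f))) (f && typ o c f)

theorem tl_payE (S : Sys Col Row Dir Cp) {o : Et Col Row Dir Cp → Bool}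
    (h : ∀ v, od S.E o v = 2) (c : Cp) (f : Bool) :
    tl S.E o (payE o c f) = .col (S.cc c (typ o c f) (payK o c f)) := by
  have h1 : o (payE o c f) = false := (form_state S h c f _ _).2 ⟨rfl, rfl⟩
  unfold tl
  rw [h1]
  rfl

/-- In a good orientation the two forms of a coupler pay different columns. -/
theorem payK_ne (S : Sys Col Row Dir Cp) {o : Et Col Row Dir Cp → Bool} (h : S.Good o) (c : Cp) :
    payK o c false ≠ payK o c true := by
  intro hk
  have h1 := tl_payE S h.1 c false
  have h2 := tl_payE S h.1 c true
  rw [hk, h.2 c] at h1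
  have := at_most_once S h.1 h1 h2 (by simp [payE]) (by simp [payE])
  simp [payE] at this

/-- In a good orientation a coupler pays both columns of its type. -/
theorem good_pays (S : Sys Col Row Dir Cp) {o : Et Col Row Dir Cp → Bool} (h : S.Good o) (c : Cp)
    (k : Bool) : ∃ f, tl S.E o (payE o c f) = .col (S.cc c (typ o c false) k) := by
  have h0 := payK_ne S h c
  by_cases hk : payK o c false = k
  · exact ⟨false, by rw [tl_payE S h.1, hk]⟩
  · refine ⟨true, ?_⟩
    have : payK o c true = k := by
      cases h1 : payK o c false <;> cases h2 : payK o c true <;> cases k <;> simp_all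
    rw [tl_payE S h.1, this, h.2 c]

end

end Pool.Agent.W982.AT
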