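import Pool.Agent.H673R2.Search

/-!
# The Alon–Tarsi number: definitions
-/

namespace Pool.Agent.W982.AT

open Pool.Agent.NPC

section
variable {V : Type*} [DecidableEq V]

/-- The set `D` of directed edges is an orientation of `G`: each edge is given exactly one of its
two directions. -/
def IsOrientation (G : SimpleGraph V) (D : Finset (V × V)) : Prop :=
  (∀ u v, G.Adj u v ↔ (u, v) ∈ D ∨ (v, u) ∈ D) ∧ ∀ u v, (u, v) ∈ D → (v, u) ∉ D

/-- The out-degree of a vertex in a set of directed edges. -/
def outDeg (F : Finset (V × V)) (v : V) : ℕ := (F.filter fun e => e.1 = v).card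

/-- The in-degree of a vertex in a set of directed edges. -/
def inDeg (F : Finset (V × V)) (v : V) : ℕ := (F.filter fun e => e.2 = v).card

/-- Every vertex has in-degree equal to out-degree: `F` is the edge set of a spanning Eulerian
subgraph. -/
def IsEulerian (F : Finset (V × V)) : Prop := ∀ v, inDeg F v = outDeg F v

open Classical in
/-- The number of even spanning Eulerian subgraphs. -/
noncomputable def EE (D : Finset (V × V)) : ℕ :=
  (D.powerset.filter fun F => IsEulerian F ∧ Even F.card).card

open Classical in
/-- The number of odd spanning Eulerian subgraphs. -/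
noncomputable def EO (D : Finset (V × V)) : ℕ :=
  (D.powerset.filter fun F => IsEulerian F ∧ Odd F.card).card

/-- The Alon–Tarsi number: the least `k` such that some orientation with `EE ≠ EO` has all
out-degrees at most `k - 1`. -/
noncomputable def alonTarsi (G : SimpleGraph V) : ℕ :=
  sInf {k | ∃ D, IsOrientation G D ∧ EE D ≠ EO D ∧ ∀ v, outDeg D v + 1 ≤ k}

end

open Classical in
/-- The adjacency matrix of a graph on the vertices `0, …, n - 1`, as the list of its rows. -/
noncomputable def adjMatrix {n : ℕ} (G : SimpleGraph (Fin n)) : List (List Bool) :=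
  List.ofFn fun i => List.ofFn fun j => decide (G.Adj i j)

/-! ### Signed sums over orientations -/

section
variable {ι V : Type*}

/-- The tail of the edge `i` in the orientation `o` (`true`: from the first to the second
vertex). -/
def tl (E : ι → V × V) (o : ι → Bool) (i : ι) : V := if o i then (E i).1 else (E i).2

variable [Fintype ι] [DecidableEq ι] [DecidableEq V]

/-- out-degree in the orientation `o` -/
def od (E : ι → V × V) (o : ι → Bool) (v : V) : ℕ := (Finset.univ.filter fun i => tl E o i = v).card

/-- sign of an orientation -/
def sg (o : ι → Bool) : ℤ := ∏ i, if o i then 1 else -1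

/-- The signed number of the orientations with all out-degrees equal to two. -/
def Z [Fintype V] (E : ι → V × V) : ℤ := ∑ o : ι → Bool, if ∀ v, od E o v = 2 then sg o else 0

end

/-! ### Gadget systems -/

/-- Rows (three terms), direct edges (two terms), couplers. -/
structure Sys (Col Row Dir Cp : Type) where
  /-- the columns of a row -/
  rc : Row → Fin 3 → Col
  /-- the columns of a direct edge -/
  dc : Dir → Bool → Col
  /-- the columns of a coupler: type (`false`: `s`, `true`: `t`) and index -/
  cc : Cp → Bool → Bool → Col

section
variable {Col Row Dir Cp : Type}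

/-- The vertices: a complete bipartite graph on `4 + 4` vertices, the columns, the rows, and four
vertices for each coupler (form and half). -/
inductive Vt (Col Row Cp : Type) : Type
  | k (s : Bool) (i : Fin 4)
  | col (x : Col)
  | row (r : Row)
  | br (c : Cp) (f h : Bool)
  deriving DecidableEq, Fintype

/-- The edges. -/
inductive Et (Col Row Dir Cp : Type) : Type
  | k (i j : Fin 4)
  | col (x : Col)
  | row (r : Row) (a : Fin 3)
  | dir (d : Dir)
  | mid (c : Cp) (f : Bool)
  | out (c : Cp) (f h t : Bool)
  deriving DecidableEq, Fintype

/-- The ends of the edges. -/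
def Sys.E (S : Sys Col Row Dir Cp) : Et Col Row Dir Cp → Vt Col Row Cp × Vt Col Row Cp
  | .k i j => (.k false i, .k true j)
  | .col x => (.col x, .k false 0)
  | .row r a => (.row r, .col (S.rc r a))
  | .dir d => (.col (S.dc d false), .col (S.dc d true))
  | .mid c f => (.br c f false, .br c f true)
  | .out c f h t => (.br c f h, .col (S.cc c t (xor h (f && t))))

/-- The type of the column paid by the form `f` of the coupler `c`. -/
def typ (o : Et Col Row Dir Cp → Bool) (c : Cp) (f : Bool) : Bool :=
  !(o (.out c f false true) && o (.out c f true true))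

variable [Fintype Col] [Fintype Row] [Fintype Dir] [Fintype Cp] [DecidableEq Col]
  [DecidableEq Row] [DecidableEq Dir] [DecidableEq Cp]

/-- All out-degrees are two and the two forms of each coupler pay columns of the same type. -/
def Sys.Good (S : Sys Col Row Dir Cp) (o : Et Col Row Dir Cp → Bool) : Prop :=
  (∀ v, od S.E o v = 2) ∧ ∀ c, typ o c false = typ o c true

/-- A sign for each column making all terms of a sum over good orientations equal. -/
structure Sys.Gauge (S : Sys Col Row Dir Cp) (σ : Col → ℤ) : Prop where
  one : ∀ x, σ x = 1 ∨ σ x = -1
  row : ∀ r a, σ (S.rc r a) = 1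
  dir : ∀ d, σ (S.dc d true) = - σ (S.dc d false)
  cp : ∀ c, σ (S.cc c true false) * σ (S.cc c true true) =
    - (σ (S.cc c false false) * σ (S.cc c false true))

end

/-! ### The system of a formula -/

section
variable {X : Type} {m : ℕ}

/-- The columns: two for each variable and time, two for each occurrence, two for the clause side
of each occurrence, two for each clause. -/
inductive Cl (X : Type) (m : ℕ) : Type
  | wire (x : X) (t : Fin (m * 3)) (h : Bool)
  | occ (t : Fin (m * 3)) (h : Bool)
  | pq (t : Fin (m * 3)) (h : Bool)
  | z (j : Fin m) (h : Bool)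
  deriving DecidableEq, Fintype

/-- The direct edges. -/
inductive Dr (X : Type) (m : ℕ) : Type
  | slot (x : X) (t : Fin (m * 3))
  | link (x : X) (t : Fin (m * 3))
  | ext (t : Fin (m * 3))
  deriving DecidableEq, Fintype

/-- the next time, cyclically -/
def nx {N : ℕ} (t : Fin N) : Fin N := ⟨(t + 1) % N, Nat.mod_lt _ t.pos⟩

/-- the index of the occurrence `a` of the clause `j` -/
def oc (j : Fin m) (a : Fin 3) : Fin (m * 3) := finProdFinEquiv (j, a)

/-- The system of a 3CNF formula: `v t` is the variable and `s t` the sign of the occurrence `t`. -/
def fsys [DecidableEq X] (v : Fin (m * 3) → X) (s : Fin (m * 3) → Bool) :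
    Sys (Cl X m) (Fin m × Fin 5) (Dr X m) (Fin (m * 3)) where
  rc r := match r.2 with
    | 0 => fun a => .pq (oc r.1 a) true
    | 1 => ![.pq (oc r.1 0) true, .pq (oc r.1 0) false, .z r.1 false]
    | 2 => ![.pq (oc r.1 1) true, .pq (oc r.1 1) false, .z r.1 false]
    | 3 => ![.pq (oc r.1 1) true, .pq (oc r.1 1) false, .z r.1 true]
    | 4 => ![.pq (oc r.1 2) true, .pq (oc r.1 2) false, .z r.1 true]
  dc d := match d with
    | .slot x t => fun h => .wire x t h
    | .link x t => fun h => if h then (if v t = x then .occ t false else .wire x (nx t) false)
        else .wire x t true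
    | .ext t => fun h => if h then .wire (v t) (nx t) false else .occ t true
  cc t a b := if b then .pq t (xor (s t) a) else .occ t a

end

end Pool.Agent.W982.AT
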