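import Pool.Agent.W982.AT.Defs
import Pool.Agent.W982.HoleRed

/-!
# The Alon–Tarsi number: the graph of a formula as a list of edges and as a matrix
-/

namespace Pool.Agent.W982.AT

open Pool.Agent.NPC
open Pool.Agent.W982.Hole (F3 lit)

/-- `1` for `true` and `0` for `false` -/
def bn (b : Bool) : ℕ := if b then 1 else 0

/-- number of vertices -/
def nv (m : ℕ) : ℕ := 8 + 31 * m + 18 * (m * m)

/-- the number of `occ t h` -/
def nOcc (m t : ℕ) (h : Bool) : ℕ := 8 + 25 * m + 2 * t + bn h

/-- the number of `pq t h` -/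
def nPq (m t : ℕ) (h : Bool) : ℕ := 8 + 19 * m + 2 * t + bn h

/-- the number of `z j h` -/
def nZ (m j : ℕ) (h : Bool) : ℕ := 8 + 17 * m + 2 * j + bn h

/-- the number of `wire x t h` -/
def nW (m x t : ℕ) (h : Bool) : ℕ := 8 + 31 * m + 2 * (x * (3 * m) + t) + bn h

/-- the number of `br t f h` -/
def nBr (m t : ℕ) (f h : Bool) : ℕ := 8 + 5 * m + 4 * t + 2 * bn f + bn h

/-- The numbers of the vertices. -/
def num {m : ℕ} : Vt (Cl (Fin (m * 3)) m) (Fin m × Fin 5) (Fin (m * 3)) → ℕ
  | .k s i => 4 * bn s + i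
  | .row r => 8 + 5 * r.1 + r.2
  | .br t f h => nBr m t f h
  | .col (.z j h) => nZ m j h
  | .col (.pq t h) => nPq m t h
  | .col (.occ t h) => nOcc m t h
  | .col (.wire x t h) => nW m x t h

/-- edges of the rows of a clause -/
def rowEdges (m j : ℕ) : List (ℕ × ℕ) :=
  [(8 + 5 * j, nPq m (3 * j) true), (8 + 5 * j, nPq m (3 * j + 1) true),
   (8 + 5 * j, nPq m (3 * j + 2) true),
   (8 + 5 * j + 1, nPq m (3 * j) true), (8 + 5 * j + 1, nPq m (3 * j) false),
   (8 + 5 * j + 1, nZ m j false),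
   (8 + 5 * j + 2, nPq m (3 * j + 1) true), (8 + 5 * j + 2, nPq m (3 * j + 1) false),
   (8 + 5 * j + 2, nZ m j false),
   (8 + 5 * j + 3, nPq m (3 * j + 1) true), (8 + 5 * j + 3, nPq m (3 * j + 1) false),
   (8 + 5 * j + 3, nZ m j true),
   (8 + 5 * j + 4, nPq m (3 * j + 2) true), (8 + 5 * j + 4, nPq m (3 * j + 2) false),
   (8 + 5 * j + 4, nZ m j true)]

/-- edges of the coupler of an occurrence and the edge `ext` -/
def cpEdges (m t : ℕ) (l : Lit ℕ) : List (ℕ × ℕ) :=
  [(nBr m t false false, nBr m t false true), (nBr m t true false, nBr m t true true),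
   (nBr m t false false, nOcc m t false), (nBr m t false false, nOcc m t true),
   (nBr m t false true, nPq m t l.1), (nBr m t false true, nPq m t (!l.1)),
   (nBr m t true false, nOcc m t false), (nBr m t true false, nPq m t (!l.1)),
   (nBr m t true true, nPq m t l.1), (nBr m t true true, nOcc m t true),
   (nOcc m t true, nW m l.2 ((t + 1) % (3 * m)) false)]

/-- the edges `slot` and `link` of a variable at the time of an occurrence -/
def wEdges (m t : ℕ) (l : Lit ℕ) (x : ℕ) : List (ℕ × ℕ) :=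
  [(nW m x t false, nW m x t true),
   (nW m x t true, if l.2 = x then nOcc m t false else nW m x ((t + 1) % (3 * m)) false)]

/-- all edges at the time of an occurrence -/
def tEdges (m t : ℕ) (l : Lit ℕ) : List (ℕ × ℕ) :=
  cpEdges m t l ++ (List.range (3 * m)).flatMap (wEdges m t l)

/-- The edges of the graph of a formula. -/
def edges (φ : F3) : List (ℕ × ℕ) :=
  [(0, 4), (0, 5), (0, 6), (0, 7), (1, 4), (1, 5), (1, 6), (1, 7), (2, 4), (2, 5), (2, 6), (2, 7),
    (3, 4), (3, 5), (3, 6), (3, 7)] ++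
  (List.range (14 * φ.length + 18 * (φ.length * φ.length))).map
    (fun x => (8 + 17 * φ.length + x, 0)) ++
  φ.zipIdx.flatMap (fun c => rowEdges φ.length c.2 ++
    (tEdges φ.length (3 * c.2) c.1.1 ++ (tEdges φ.length (3 * c.2 + 1) c.1.2.1 ++
      tEdges φ.length (3 * c.2 + 2) c.1.2.2)))

/-- The graph of a formula. -/
def graph (φ : F3) : SimpleGraph (Fin (nv φ.length)) :=
  SimpleGraph.fromRel fun a b => ((a : ℕ), (b : ℕ)) ∈ edges φ

/-- The adjacency matrix of the graph of a formula. -/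
def mat (φ : F3) : List (List Bool) :=
  (List.range (nv φ.length)).map fun a => (List.range (nv φ.length)).map fun b =>
    decide ((a, b) ∈ edges φ ∨ (b, a) ∈ edges φ)

/-- The variable of an occurrence. -/
def fv (φ : F3) (hb : Bounded3 φ) (t : Fin (φ.length * 3)) : Fin (φ.length * 3) :=
  ⟨(lit φ (t / 3) (t % 3)).2, by
    have := Hole.lit_lt hb (j := t / 3) (p := t % 3) (by have := t.2; omega)
    omega⟩

/-- The sign of an occurrence. -/
def fs (φ : F3) (t : Fin (φ.length * 3)) : Bool := (lit φ (t / 3) (t % 3)).1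

end Pool.Agent.W982.AT
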