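import Pool.Agent.W982.AT.Basic

/-!
# A good orientation yields a satisfying assignment
-/

namespace Pool.Agent.W982.AT

theorem nx_iterate {N : ℕ} (t : Fin N) (k : ℕ) : ((nx^[k] t : Fin N) : ℕ) = (t + k) % N := by
  induction k with
  | zero => simp [Nat.mod_eq_of_lt t.2]
  | succ k ih =>
    rw [Function.iterate_succ', Function.comp]
    change (((nx^[k] t : Fin N) : ℕ) + 1) % N = _
    rw [ih, Nat.mod_add_mod, add_assoc]

theorem exists_iterate {N : ℕ} (t t' : Fin N) : ∃ k, nx^[k] t = t' := by
  refine ⟨t' + N - t, ?_⟩
  apply Fin.ext
  rw [nx_iterate]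
  have h1 := t.2
  have h2 := t'.2
  rw [show (t : ℕ) + (t' + N - t) = t' + N by omega, Nat.add_mod_right, Nat.mod_eq_of_lt h2]

section
variable {X : Type} [Fintype X] [DecidableEq X] {m : ℕ} (v : Fin (m * 3) → X)
  (s : Fin (m * 3) → Bool)

variable {o : Et (Cl X m) (Fin m × Fin 5) (Dr X m) (Fin (m * 3)) → Bool}

theorem tl_dir_true {d : Dr X m} (h : o (.dir d) = true) :
    tl (fsys v s).E o (.dir d) = .col ((fsys v s).dc d false) := by
  unfold tl
  rw [h]
  rfl

theorem tl_dir_false {d : Dr X m} (h : o (.dir d) = false) :
    tl (fsys v s).E o (.dir d) = .col ((fsys v s).dc d true) := by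
  unfold tl
  rw [h]
  rfl

/-- the column `occ t (typ)` is paid by the coupler -/
theorem pays_occ (h : (fsys v s).Good o) (t : Fin (m * 3)) :
    ∃ f, tl (fsys v s).E o (payE o t f) = .col (.occ t (typ o t false)) := by
  obtain ⟨f, hf⟩ := good_pays (fsys v s) h t false
  exact ⟨f, hf.trans (by simp [fsys])⟩

theorem pays_pq (h : (fsys v s).Good o) (t : Fin (m * 3)) :
    ∃ f, tl (fsys v s).E o (payE o t f) = .col (.pq t (xor (s t) (typ o t false))) := by
  obtain ⟨f, hf⟩ := good_pays (fsys v s) h t true
  exact ⟨f, hf.trans (by simp [fsys])⟩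

/-- if the coupler has type `t`, the slot at the next time is in state one -/
theorem next_of_typ (h : (fsys v s).Good o) {t : Fin (m * 3)} (ht : typ o t false = true) :
    o (.dir (.slot (v t) (nx t))) = false := by
  obtain ⟨f, hf⟩ := pays_occ v s h t
  rw [ht] at hf
  by_contra hs
  have hs' : o (.dir (.slot (v t) (nx t))) = true := by simpa using hs
  have h1 := tl_dir_true v s hs'
  have he : o (.dir (.ext t)) = false := by
    by_contra he
    have he' : o (.dir (.ext t)) = true := by simpa using he
    have h2 := tl_dir_true v s he'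
    have := at_most_once (fsys v s) h.1 hf (h2.trans (by simp [fsys])) (by simp [payE]) (by simp)
    simp [payE] at this
  have h2 := tl_dir_false v s he
  have := at_most_once (fsys v s) h.1 (h1.trans (by simp [fsys]; rfl)) (h2.trans (by simp [fsys]))
    (by simp) (by simp)
  simp at this

/-- if the coupler has type `s`, the slot at this time is in state zero -/
theorem slot_of_typ (h : (fsys v s).Good o) {t : Fin (m * 3)} (ht : typ o t false = false) :
    o (.dir (.slot (v t) t)) = true := by
  obtain ⟨f, hf⟩ := pays_occ v s h t
  rw [ht] at hf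
  by_contra hs
  have hs' : o (.dir (.slot (v t) t)) = false := by simpa using hs
  have h1 := tl_dir_false v s hs'
  have he : o (.dir (.link (v t) t)) = true := by
    by_contra he
    have he' : o (.dir (.link (v t) t)) = false := by simpa using he
    have h2 := tl_dir_false v s he'
    have := at_most_once (fsys v s) h.1 hf (h2.trans (by simp [fsys])) (by simp [payE]) (by simp)
    simp [payE] at this
  have h2 := tl_dir_true v s he
  have := at_most_once (fsys v s) h.1 (h1.trans (by simp [fsys]; rfl)) (h2.trans (by simp [fsys]))
    (by simp) (by simp)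
  simp at this

theorem step (h : (fsys v s).Good o) {x : X} {t : Fin (m * 3)}
    (ht : o (.dir (.slot x t)) = false) : o (.dir (.slot x (nx t))) = false := by
  have h1 := tl_dir_false v s ht
  have he : o (.dir (.link x t)) = false := by
    by_contra he
    have he' : o (.dir (.link x t)) = true := by simpa using he
    have h2 := tl_dir_true v s he'
    have := at_most_once (fsys v s) h.1 (h1.trans (by simp [fsys]; rfl))
      (h2.trans (by simp [fsys])) (by simp) (by simp)
    simp at this
  have h2 := tl_dir_false v s he
  by_cases hv : v t = x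
  · subst hv
    have hT : typ o t false = true := by
      by_contra hT
      have hT' : typ o t false = false := by simpa using hT
      rw [slot_of_typ v s h hT'] at ht
      exact absurd ht (by simp)
    exact next_of_typ v s h hT
  · by_contra hs
    have hs' : o (.dir (.slot x (nx t))) = true := by simpa using hs
    have h3 := tl_dir_true v s hs'
    have := at_most_once (fsys v s) h.1 (h3.trans (by simp [fsys]; rfl))
      (h2.trans (by simp [fsys, hv])) (by simp) (by simp)
    simp at this

theorem step_iterate (h : (fsys v s).Good o) {x : X} {t : Fin (m * 3)} (k : ℕ)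
    (ht : o (.dir (.slot x t)) = false) : o (.dir (.slot x (nx^[k] t))) = false := by
  induction k with
  | zero => exact ht
  | succ k ih => rw [Function.iterate_succ']; exact step v s h ih

theorem slot_const (h : (fsys v s).Good o) (x : X) (t t' : Fin (m * 3)) :
    o (.dir (.slot x t)) = o (.dir (.slot x t')) := by
  have key : ∀ t t' : Fin (m * 3), o (.dir (.slot x t)) = false →
      o (.dir (.slot x t')) = false := by
    intro t t' ht
    obtain ⟨k, hk⟩ := exists_iterate t t'
    rw [← hk]
    exact step_iterate v s h k ht
  cases h1 : o (.dir (.slot x t)) <;> cases h2 : o (.dir (.slot x t')) <;> try rfl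
  · rw [key t t' h1] at h2; exact absurd h2 (by simp)
  · rw [key t' t h2] at h1; exact absurd h1 (by simp)

theorem slot_eq_typ (h : (fsys v s).Good o) (t : Fin (m * 3)) :
    o (.dir (.slot (v t) t)) = !(typ o t false) := by
  cases hT : typ o t false
  · exact slot_of_typ v s h hT
  · rw [slot_const v s h _ t (nx t)]
    exact next_of_typ v s h hT

/-- A good orientation yields a satisfying assignment. -/
theorem sat_of_good (h : (fsys v s).Good o) :
    ∃ τ : X → Bool, ∀ j : Fin m, ∃ a : Fin 3, τ (v (oc j a)) = s (oc j a) := by
  classical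
  refine ⟨fun x => decide (∃ t, o (.dir (.slot x t)) = false), fun j => ?_⟩
  have hrow : ∃ a, o (.row (j, 0) a) = false := by
    by_contra hno
    push Not at hno
    have hall : ∀ a, o (.row (j, 0) a) = true := fun a => by simpa using hno a
    have hs : (Finset.univ.image fun a : Fin 3 =>
        (.row (j, 0) a : Et (Cl X m) (Fin m × Fin 5) (Dr X m) (Fin (m * 3)))) ⊆
        Finset.univ.filter fun i => tl (fsys v s).E o i = .row (j, 0) := by
      intro e he
      simp only [Finset.mem_image, Finset.mem_univ, true_and] at he
      obtain ⟨a, rfl⟩ := he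
      rw [Finset.mem_filter]
      refine ⟨Finset.mem_univ _, ?_⟩
      unfold tl
      rw [hall a]
      rfl
    have h1 := Finset.card_le_card hs
    rw [Finset.card_image_of_injective _ (fun a b hab => by simpa using hab)] at h1
    have h2 : (Finset.univ.filter fun i => tl (fsys v s).E o i = .row (j, 0)).card = 2 := h.1 _
    simp at h1
    omega
  obtain ⟨a, ha⟩ := hrow
  refine ⟨a, ?_⟩
  have h1 : tl (fsys v s).E o (.row (j, 0) a) = .col (.pq (oc j a) true) := by
    unfold tl
    rw [ha]
    rfl
  obtain ⟨f, hf⟩ := pays_pq v s h (oc j a)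
  have h2 : s (oc j a) = typ o (oc j a) false := by
    by_contra hne
    have h3 : xor (s (oc j a)) (typ o (oc j a) false) = true := by
      cases h4 : s (oc j a) <;> cases h5 : typ o (oc j a) false <;> simp_all
    rw [h3] at hf
    have := at_most_once (fsys v s) h.1 h1 hf (by simp) (by simp [payE])
    simp [payE] at this
  rw [h2]
  have h3 := slot_eq_typ v s h (oc j a)
  cases hT : typ o (oc j a) false
  · rw [hT] at h3
    rw [decide_eq_false_iff_not]
    rintro ⟨t, ht⟩
    rw [slot_const v s h _ t (oc j a), h3] at ht
    exact absurd ht (by simp)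
  · rw [hT] at h3
    rw [decide_eq_true_eq]
    exact ⟨_, h3⟩

end

end Pool.Agent.W982.AT
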