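import Pool.Agent.W982.AT.Basic

/-!
# All good orientations have the same sign
-/

namespace Pool.Agent.W982.AT

section
variable {Col Row Dir Cp : Type} [Fintype Col] [Fintype Row] [Fintype Dir] [Fintype Cp]
  [DecidableEq Col] [DecidableEq Row] [DecidableEq Dir] [DecidableEq Cp]

/-- the sign of a vertex -/
def mu (σ : Col → ℤ) : Vt Col Row Cp → ℤ
  | .k s _ => if s then -1 else 1
  | .col x => σ x
  | .row _ => -1
  | .br _ _ _ => 1

/-- `±1` -/
def sb (b : Bool) : ℤ := if b then 1 else -1

/-- the factor of an edge -/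
def fac (S : Sys Col Row Dir Cp) (σ : Col → ℤ) (o : Et Col Row Dir Cp → Bool)
    (e : Et Col Row Dir Cp) : ℤ := sb (o e) * mu σ (tl S.E o e)

theorem mu_sq (S : Sys Col Row Dir Cp) {σ : Col → ℤ} (hσ : S.Gauge σ) (v : Vt Col Row Cp) :
    mu σ v ^ 2 = 1 := by
  cases v with
  | k s i => cases s <;> simp [mu]
  | col x => rcases hσ.one x with h | h <;> simp [mu, h]
  | row r => simp [mu]
  | br c f h => simp [mu]

theorem sg_eq_prod_fac (S : Sys Col Row Dir Cp) {σ : Col → ℤ} (hσ : S.Gauge σ)
    {o : Et Col Row Dir Cp → Bool} (h : ∀ v, od S.E o v = 2) : sg o = ∏ e, fac S σ o e := by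
  have h1 : ∏ e, mu σ (tl S.E o e) = 1 := by
    rw [← Finset.prod_fiberwise (s := Finset.univ) (g := tl S.E o)]
    refine Finset.prod_eq_one fun v _ => ?_
    rw [Finset.prod_congr rfl (g := fun _ => mu σ v) (fun e he => by
      rw [(Finset.mem_filter.1 he).2]), Finset.prod_const]
    have h2 : (Finset.univ.filter fun i => tl S.E o i = v).card = 2 := h v
    rw [h2, mu_sq S hσ]
  unfold fac
  rw [Finset.prod_mul_distrib, h1, mul_one]
  rfl

/-- the coupler of an edge -/
def grp : Et Col Row Dir Cp → Option Cp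
  | .mid c _ => some c
  | .out c _ _ _ => some c
  | _ => none

theorem fac_eq_of_grp (S : Sys Col Row Dir Cp) {σ : Col → ℤ} (hσ : S.Gauge σ)
    {o o' : Et Col Row Dir Cp → Bool} (h : ∀ v, od S.E o v = 2) (h' : ∀ v, od S.E o' v = 2)
    {e : Et Col Row Dir Cp} (he : grp e = none) : fac S σ o e = fac S σ o' e := by
  cases e with
  | k i j =>
    cases h1 : o (.k i j) <;> cases h2 : o' (.k i j) <;> simp [fac, sb, tl, Sys.E, mu, h1, h2]
  | col x => simp [fac, sb, tl, col_true S h x, col_true S h' x]
  | row r a =>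
    cases h1 : o (.row r a) <;> cases h2 : o' (.row r a) <;>
      simp [fac, sb, tl, Sys.E, mu, h1, h2, hσ.row]
  | dir d =>
    cases h1 : o (.dir d) <;> cases h2 : o' (.dir d) <;>
      simp [fac, sb, tl, Sys.E, mu, h1, h2, hσ.dir]
  | mid c f => simp [grp] at he
  | out c f h t => simp [grp] at he

/-- the product of the factors of a form -/
theorem form_prod (S : Sys Col Row Dir Cp) (σ : Col → ℤ) {o : Et Col Row Dir Cp → Bool}
    (h : ∀ v, od S.E o v = 2) (c : Cp) (f : Bool) :
    fac S σ o (.mid c f) * ∏ h' : Bool, ∏ t : Bool, fac S σ o (.out c f h' t) =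
      - (sb (o (.mid c f)) * σ (S.cc c (typ o c f) (payK o c f))) := by
  have hs : ∀ h' t, o (.out c f h' t) = !(decide (h' = !(o (.mid c f))) && decide (t = typ o c f)) := by
    intro h' t
    have := form_state S h c f h' t
    cases h1 : o (.out c f h' t)
    · have h2 := this.1 h1
      simp [h2.1, h2.2]
    · have h2 : ¬ (h' = !(o (.mid c f)) ∧ t = typ o c f) := fun h2 => by
        rw [this.2 h2] at h1; exact absurd h1 (by simp)
      rw [← Bool.decide_and, decide_eq_false h2]
      rfl
  have hm : fac S σ o (.mid c f) = sb (o (.mid c f)) := by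
    cases h1 : o (.mid c f) <;> simp [fac, tl, Sys.E, mu, h1]
  have ho : ∀ h' t, fac S σ o (.out c f h' t) =
      if h' = !(o (.mid c f)) ∧ t = typ o c f then - σ (S.cc c t (xor h' (f && t))) else 1 := by
    intro h' t
    have h1 := hs h' t
    unfold fac tl
    by_cases h2 : h' = !(o (.mid c f)) ∧ t = typ o c f
    · rw [if_pos h2]
      have h3 : o (.out c f h' t) = false := by rw [h1]; simp [h2.1, h2.2]
      rw [h3]
      simp [sb, Sys.E, mu]
    · rw [if_neg h2]
      have h3 : o (.out c f h' t) = true := by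
        rw [h1, ← Bool.decide_and, decide_eq_false h2]; rfl
      rw [h3]
      simp [sb, Sys.E, mu]
  rw [hm]
  simp only [ho, Fintype.prod_bool]
  unfold payK
  generalize typ o c f = T
  generalize o (.mid c f) = M
  cases T <;> cases M <;> simp

/-- the product of the factors of a coupler -/
theorem coupler_prod (S : Sys Col Row Dir Cp) {σ : Col → ℤ} (hσ : S.Gauge σ)
    {o : Et Col Row Dir Cp → Bool} (h : S.Good o) (c : Cp) :
    ∏ f : Bool, (fac S σ o (.mid c f) * ∏ h' : Bool, ∏ t : Bool, fac S σ o (.out c f h' t)) =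
      - (σ (S.cc c false false) * σ (S.cc c false true)) := by
  rw [Fintype.prod_bool, form_prod S σ h.1, form_prod S σ h.1]
  have hk := payK_ne S h c
  have ht := h.2 c
  have hcp := hσ.cp c
  unfold payK at *
  revert ht hk
  generalize typ o c false = T
  generalize typ o c true = T'
  generalize o (.mid c false) = M
  generalize o (.mid c true) = M'
  intro hk ht
  subst ht
  cases T <;> cases M <;> cases M' <;> simp [sb] at hk ⊢ <;> linarith

theorem sg_good (S : Sys Col Row Dir Cp) {σ : Col → ℤ} (hσ : S.Gauge σ)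
    {o o' : Et Col Row Dir Cp → Bool} (h : S.Good o) (h' : S.Good o') : sg o = sg o' := by
  classical
  rw [sg_eq_prod_fac S hσ h.1, sg_eq_prod_fac S hσ h'.1,
    ← Finset.prod_fiberwise (s := Finset.univ) (g := grp) (f := fac S σ o),
    ← Finset.prod_fiberwise (s := Finset.univ) (g := grp) (f := fac S σ o')]
  refine Finset.prod_congr rfl fun g _ => ?_
  cases g with
  | none =>
    refine Finset.prod_congr rfl fun e he => ?_
    exact fac_eq_of_grp S hσ h.1 h'.1 (Finset.mem_filter.1 he).2
  | some c =>
    have key : ∀ F : Et Col Row Dir Cp → ℤ,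
        ∏ e ∈ Finset.univ.filter (fun e : Et Col Row Dir Cp => grp e = some c), F e =
        ∏ f : Bool, (F (.mid c f) * ∏ h' : Bool, ∏ t : Bool, F (.out c f h' t)) := by
      intro F
      have hset : Finset.univ.filter (fun e : Et Col Row Dir Cp => grp e = some c) =
          (Finset.univ : Finset (Bool ⊕ (Bool × Bool × Bool))).image
            (Sum.elim (fun f => .mid c f) (fun p => .out c p.1 p.2.1 p.2.2)) := by
        ext e
        simp only [Finset.mem_filter, Finset.mem_univ, true_and, Finset.mem_image, Sum.exists,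
          Sum.elim_inl, Sum.elim_inr, Prod.exists]
        cases e <;> simp [grp, eq_comm]
      rw [hset, Finset.prod_image]
      · rw [Fintype.prod_sum_type, Finset.prod_mul_distrib]
        simp [Fintype.prod_prod_type]
      · intro a _ b _ hab
        rcases a with a | ⟨a1, a2, a3⟩ <;> rcases b with b | ⟨b1, b2, b3⟩ <;>
          simp at hab ⊢ <;> assumption
    rw [key, key, coupler_prod S hσ h, coupler_prod S hσ h']

end

end Pool.Agent.W982.AT
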